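import Pool.Agent.N303.SH.G
import Pool.Agent.N549.SG.Stm

/-!
# The recurrence of the integrals of Gegenbauer polynomials over a cap (project SG, REC)
-/

set_option autoImplicit false

namespace Pool.Agent.N80.SG

open MeasureTheory Set Filter Topology
open scoped ENNReal NNReal RealInnerProductSpace
open Pool.Agent.N303.SH (E S sg e0 on_e inner_e0 rexp rexp_deriv rotint S_norm int_cc)
open Pool.Agent.N549.SG (sig near capVol G capL S_REC)

variable {n : ℕ}

lemma int_rc {f : S n → ℝ} (hf : Continuous f) : Integrable f (sg n) :=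
  hf.integrable_of_hasCompactSupport (HasCompactSupport.of_compactSpace f)

/-- the identity from a rotation of a plane -/
lemma rotphi {u w : E n} (hu : ‖u‖ = 1) (hw : ‖w‖ = 1) (huw : ⟪u, w⟫ = 0) {φ φ' : ℝ → ℝ}
    (hd : ∀ s, HasDerivAt φ (φ' s) s) (hc : Continuous φ') :
    ∫ x : S n, φ ⟪u, (x : E n)⟫ * ⟪u, (x : E n)⟫ ∂(sg n) -
      ∫ x : S n, φ' ⟪u, (x : E n)⟫ * ⟪w, (x : E n)⟫ ^ 2 ∂(sg n) = 0 := by
  have hφ : Continuous φ := continuous_iff_continuousAt.2 fun s => (hd s).continuousAt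
  set A := R235.VE.Aij u w with hA
  have hAs : ∀ x y : E n, ⟪A x, y⟫ = -⟪x, A y⟫ := R235.VE.Aij_skew u w
  have hAu : ∀ x, ⟪u, A x⟫ = -⟪w, x⟫ := by
    intro x
    rw [hA, R235.VE.Aij_apply, inner_sub_right, inner_smul_right, inner_smul_right, huw,
      real_inner_self_eq_norm_sq, hu]
    ring
  have hAv : ∀ x, ⟪w, A x⟫ = ⟪u, x⟫ := by
    intro x
    rw [hA, R235.VE.Aij_apply, inner_sub_right, inner_smul_right, inner_smul_right,
      real_inner_comm u w, huw, real_inner_self_eq_norm_sq, hw]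
    ring
  have key := rotint A hAs (G := fun x => ((φ ⟪u, x⟫ * ⟪w, x⟫ : ℝ) : ℂ))
    (G' := fun x => ((φ ⟪u, x⟫ * ⟪u, x⟫ - φ' ⟪u, x⟫ * ⟪w, x⟫ ^ 2 : ℝ) : ℂ)) ?_ ?_ ?_
  · have i1 : Integrable (fun x : S n => φ ⟪u, (x : E n)⟫ * ⟪u, (x : E n)⟫) (sg n) :=
      int_rc (by fun_prop)
    have i2 : Integrable (fun x : S n => φ' ⟪u, (x : E n)⟫ * ⟪w, (x : E n)⟫ ^ 2) (sg n) :=
      int_rc (by fun_prop)
    rw [integral_complex_ofReal] at key
    rw [← integral_sub i1 i2]
    exact_mod_cast key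
  · fun_prop
  · fun_prop
  · intro x s
    set y := rexp A hAs s x with hy
    have d1 : HasDerivAt (fun s => ⟪u, rexp A hAs s x⟫) (-⟪w, y⟫) s := by
      have := rexp_deriv A hAs u x s
      rwa [hAu] at this
    have d2 : HasDerivAt (fun s => ⟪w, rexp A hAs s x⟫) ⟪u, y⟫ s := by
      have := rexp_deriv A hAs w x s
      rwa [hAv] at this
    have d3 : HasDerivAt (fun s => φ ⟪u, rexp A hAs s x⟫) (φ' ⟪u, y⟫ * (-⟪w, y⟫)) s :=
      (hd _).comp s d1
    refine ((d3.mul d2).ofReal_comp).congr_deriv ?_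
    rw [← hy]
    push_cast
    ring

/-- the divergence identity -/
lemma divphi (c : ℕ) {φ φ' : ℝ → ℝ} (hd : ∀ s, HasDerivAt φ (φ' s) s) (hc : Continuous φ') :
    ∫ x : S (c + 2), (((c : ℝ) + 1) * ((x : E (c + 2)) 0 * φ ((x : E (c + 2)) 0)) -
      (1 - (x : E (c + 2)) 0 ^ 2) * φ' ((x : E (c + 2)) 0)) ∂(sg (c + 2)) = 0 := by
  have hφ : Continuous φ := continuous_iff_continuousAt.2 fun s => (hd s).continuousAt
  have h1 : ∀ j : Fin (c + 1), ⟪e0 c, (EuclideanSpace.single j.succ (1 : ℝ) : E (c + 2))⟫ = 0 := by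
    intro j
    rw [inner_e0]
    simp
  have h2 := fun j : Fin (c + 1) => rotphi (u := e0 c) (w := EuclideanSpace.single j.succ (1 : ℝ))
    (on_e c).hu (by simp) (h1 j) hd hc
  have h3 := Finset.sum_congr (rfl : (Finset.univ : Finset (Fin (c + 1))) = Finset.univ)
    (fun j _ => h2 j)
  rw [Finset.sum_const_zero, Finset.sum_sub_distrib, Finset.sum_const,
    Finset.card_univ, Fintype.card_fin, nsmul_eq_mul] at h3
  have h4 : ∑ j : Fin (c + 1), ∫ x : S (c + 2), φ' ⟪e0 c, (x : E (c + 2))⟫ *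
      ⟪(EuclideanSpace.single j.succ (1 : ℝ) : E (c + 2)), (x : E (c + 2))⟫ ^ 2 ∂(sg (c + 2)) =
      ∫ x : S (c + 2), (1 - (x : E (c + 2)) 0 ^ 2) * φ' ((x : E (c + 2)) 0) ∂(sg (c + 2)) := by
    rw [← integral_finsetSum]
    · congr 1
      ext x
      rw [← Finset.mul_sum]
      have h5 : ‖(x : E (c + 2))‖ ^ 2 = 1 := by rw [S_norm]; norm_num
      rw [EuclideanSpace.real_norm_sq_eq, Fin.sum_univ_succ] at h5
      rw [inner_e0]
      have h6 : ∀ j : Fin (c + 1), ⟪(EuclideanSpace.single j.succ (1 : ℝ) : E (c + 2)), (x : E (c + 2))⟫ =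
          (x : E (c + 2)) j.succ := by
        intro j
        rw [EuclideanSpace.inner_single_left]
        simp
      simp only [h6]
      have h7 : ∑ j : Fin (c + 1), (x : E (c + 2)) j.succ ^ 2 = 1 - (x : E (c + 2)) 0 ^ 2 := by
        linarith
      rw [h7, mul_comm]
    · intro j _
      exact int_rc (by fun_prop)
  rw [h4] at h3
  rw [integral_sub (int_rc (by fun_prop)) (int_rc (by fun_prop)), integral_const_mul]
  simp only [inner_e0] at h3
  have h8 : ∫ x : S (c + 2), φ ((x : E (c + 2)) 0) * (x : E (c + 2)) 0 ∂(sg (c + 2)) =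
      ∫ x : S (c + 2), (x : E (c + 2)) 0 * φ ((x : E (c + 2)) 0) ∂(sg (c + 2)) := by
    congr 1
    ext x
    ring
  rw [h8] at h3
  push_cast at h3
  exact h3

lemma x0_le (c : ℕ) (x : S (c + 2)) : |(x : E (c + 2)) 0| ≤ 1 := by
  have h := abs_real_inner_le_norm (e0 c) (x : E (c + 2))
  rw [inner_e0, (on_e c).hu, S_norm, mul_one] at h
  exact h

/-- the derivative of the cut function -/
noncomputable def st' (x : ℝ) : ℝ := deriv Real.smoothTransition x

lemma st_hd (x : ℝ) : HasDerivAt Real.smoothTransition (st' x) x :=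
  ((Real.smoothTransition.contDiff (n := 1)).differentiable (by norm_num) x).hasDerivAt

lemma st'_cont : Continuous st' :=
  (Real.smoothTransition.contDiff (n := 1)).continuous_deriv (by norm_num)

lemma st'_neg {x : ℝ} (hx : x < 0) : st' x = 0 := by
  have h : Real.smoothTransition =ᶠ[𝓝 x] fun _ => (0 : ℝ) := by
    filter_upwards [isOpen_Iio.mem_nhds hx] with y hy
    exact Real.smoothTransition.zero_of_nonpos (le_of_lt hy)
  unfold st'
  rw [h.deriv_eq, deriv_const]

lemma st'_one {x : ℝ} (hx : 1 < x) : st' x = 0 := by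
  have h : Real.smoothTransition =ᶠ[𝓝 x] fun _ => (1 : ℝ) := by
    filter_upwards [isOpen_Ioi.mem_nhds hx] with y hy
    exact Real.smoothTransition.one_of_one_le (le_of_lt hy)
  unfold st'
  rw [h.deriv_eq, deriv_const]

lemma st'_bd : ∃ M : ℝ, 0 ≤ M ∧ ∀ x, |x * st' x| ≤ M := by
  obtain ⟨M, hM⟩ := (isCompact_Icc (a := (0 : ℝ)) (b := 1)).exists_bound_of_continuousOn
    ((continuous_id.mul st'_cont).continuousOn)
  have hM0 : 0 ≤ M := (norm_nonneg _).trans (hM 0 ⟨le_rfl, zero_le_one⟩)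
  refine ⟨M, hM0, fun x => ?_⟩
  by_cases h0 : x < 0
  · rw [st'_neg h0, mul_zero, abs_zero]; exact hM0
  · by_cases h1 : 1 < x
    · rw [st'_one h1, mul_zero, abs_zero]; exact hM0
    · exact hM x ⟨not_lt.1 h0, not_lt.1 h1⟩

/-- the cap -/
def cap (c : ℕ) (t : ℝ) : Set (S (c + 2)) := {y : S (c + 2) | t < (y : E (c + 2)) 0}

lemma cap_meas (c : ℕ) (t : ℝ) : MeasurableSet (cap c t) :=
  (isOpen_lt continuous_const (by fun_prop : Continuous fun y : S (c + 2) => (y : E (c + 2)) 0)).measurableSet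

/-- the divergence identity on a cap -/
lemma divcap (c : ℕ) {t : ℝ} {ψ ψ' : ℝ → ℝ} (hd : ∀ s, HasDerivAt ψ (ψ' s) s)
    (hc : Continuous ψ') (h0 : ψ t = 0) (ht : |t| ≤ 1) :
    ∫ x in cap c t, (((c : ℝ) + 1) * ((x : E (c + 2)) 0 * ψ ((x : E (c + 2)) 0)) -
      (1 - (x : E (c + 2)) 0 ^ 2) * ψ' ((x : E (c + 2)) 0)) ∂(sg (c + 2)) = 0 := by
  have hψ : Continuous ψ := continuous_iff_continuousAt.2 fun s => (hd s).continuousAt
  obtain ⟨M, hM0, hM⟩ := st'_bd
  obtain ⟨L, hL⟩ := (isCompact_Icc (a := (-1 : ℝ)) (b := 1)).exists_bound_of_continuousOn hc.continuousOn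
  obtain ⟨B, hB⟩ := (isCompact_Icc (a := (-1 : ℝ)) (b := 1)).exists_bound_of_continuousOn hψ.continuousOn
  have hL0 : 0 ≤ L := (norm_nonneg _).trans (hL 0 ⟨by norm_num, by norm_num⟩)
  have hB0 : 0 ≤ B := (norm_nonneg _).trans (hB 0 ⟨by norm_num, by norm_num⟩)
  have hlip : ∀ u ∈ Icc (-1 : ℝ) 1, |ψ u| ≤ L * |u - t| := by
    intro u hu
    have h1 := (convex_Icc (-1 : ℝ) 1).norm_image_sub_le_of_norm_hasDerivWithin_le
      (f := ψ) (f' := ψ') (C := L) (fun x _ => (hd x).hasDerivWithinAt) hL (abs_le.1 ht) hu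
    rwa [h0, sub_zero] at h1
  -- the cut functions
  set F : ℕ → S (c + 2) → ℝ := fun k x =>
    (((c : ℝ) + 1) * ((x : E (c + 2)) 0 *
      (ψ ((x : E (c + 2)) 0) * Real.smoothTransition ((k : ℝ) * ((x : E (c + 2)) 0 - t)))) -
      (1 - (x : E (c + 2)) 0 ^ 2) * (ψ' ((x : E (c + 2)) 0) *
        Real.smoothTransition ((k : ℝ) * ((x : E (c + 2)) 0 - t)) +
        ψ ((x : E (c + 2)) 0) * (st' ((k : ℝ) * ((x : E (c + 2)) 0 - t)) * k))) with hF
  have hF0 : ∀ k, ∫ x, F k x ∂(sg (c + 2)) = 0 := by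
    intro k
    have h1 : ∀ s, HasDerivAt (fun u : ℝ => ψ u * Real.smoothTransition ((k : ℝ) * (u - t)))
        (ψ' s * Real.smoothTransition ((k : ℝ) * (s - t)) + ψ s * (st' ((k : ℝ) * (s - t)) * k)) s := by
      intro s
      have e1 : HasDerivAt (fun u : ℝ => (k : ℝ) * (u - t)) (k : ℝ) s := by
        simpa using ((hasDerivAt_id s).sub_const t).const_mul (k : ℝ)
      exact (hd s).mul ((st_hd _).comp s e1)
    have h2 := st'_cont
    have h3 : Continuous Real.smoothTransition := (Real.smoothTransition.contDiff (n := 1)).continuous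
    exact divphi c h1 (by fun_prop)
  have hst := st'_cont
  have hst0 : Continuous Real.smoothTransition := (Real.smoothTransition.contDiff (n := 1)).continuous
  have hlim : Tendsto (fun k => ∫ x, F k x ∂(sg (c + 2))) atTop
      (𝓝 (∫ x, (cap c t).indicator (fun x : S (c + 2) => (((c : ℝ) + 1) * ((x : E (c + 2)) 0 * ψ ((x : E (c + 2)) 0)) -
      (1 - (x : E (c + 2)) 0 ^ 2) * ψ' ((x : E (c + 2)) 0))) x ∂(sg (c + 2)))) := by
    refine tendsto_integral_of_dominated_convergence (fun _ => ((c : ℝ) + 1) * B + (L + L * M)) ?_ ?_ ?_ ?_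
    · intro k
      exact (by rw [hF]; fun_prop : Continuous (F k)).aestronglyMeasurable
    · exact integrable_const _
    · intro k
      refine Eventually.of_forall fun x => ?_
      have hx := x0_le c x
      have hx' : (x : E (c + 2)) 0 ∈ Icc (-1 : ℝ) 1 := abs_le.1 hx
      set u := (x : E (c + 2)) 0 with hu
      have g1 : |Real.smoothTransition ((k : ℝ) * (u - t))| ≤ 1 := by
        rw [abs_of_nonneg (Real.smoothTransition.nonneg _)]
        exact Real.smoothTransition.le_one _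
      have g2 : |((c : ℝ) + 1) * (u * (ψ u * Real.smoothTransition ((k : ℝ) * (u - t))))| ≤
          ((c : ℝ) + 1) * B := by
        rw [abs_mul, abs_of_nonneg (by positivity : (0 : ℝ) ≤ (c : ℝ) + 1), abs_mul, abs_mul]
        refine mul_le_mul_of_nonneg_left ?_ (by positivity)
        calc |u| * (|ψ u| * |Real.smoothTransition ((k : ℝ) * (u - t))|) ≤ 1 * (B * 1) :=
              mul_le_mul hx (mul_le_mul (hB u hx') g1 (abs_nonneg _) hB0) (by positivity) zero_le_one
          _ = B := by ring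
      have g3 : |1 - u ^ 2| ≤ 1 := by
        rw [abs_le]
        have := sq_nonneg u
        have := abs_le.1 hx
        constructor
        · nlinarith
        · nlinarith
      have g4 : |ψ' u * Real.smoothTransition ((k : ℝ) * (u - t)) +
          ψ u * (st' ((k : ℝ) * (u - t)) * k)| ≤ L + L * M := by
        refine (abs_add_le _ _).trans (add_le_add ?_ ?_)
        · rw [abs_mul]
          calc |ψ' u| * |Real.smoothTransition ((k : ℝ) * (u - t))| ≤ L * 1 :=
                mul_le_mul (hL u hx') g1 (abs_nonneg _) hL0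
            _ = L := mul_one L
        · rw [abs_mul]
          calc |ψ u| * |st' ((k : ℝ) * (u - t)) * k| ≤ (L * |u - t|) * |st' ((k : ℝ) * (u - t)) * k| :=
                mul_le_mul_of_nonneg_right (hlip u hx') (abs_nonneg _)
            _ = L * |((k : ℝ) * (u - t)) * st' ((k : ℝ) * (u - t))| := by
                rw [abs_mul, abs_mul, abs_mul]; ring
            _ ≤ L * M := mul_le_mul_of_nonneg_left (hM _) hL0
      rw [Real.norm_eq_abs]
      simp only [hF]
      refine (abs_sub _ _).trans (add_le_add g2 ?_)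
      rw [abs_mul]
      calc |1 - u ^ 2| * |ψ' u * Real.smoothTransition ((k : ℝ) * (u - t)) +
          ψ u * (st' ((k : ℝ) * (u - t)) * k)| ≤ 1 * (L + L * M) :=
            mul_le_mul g3 g4 (abs_nonneg _) zero_le_one
        _ = L + L * M := one_mul _
    · refine Eventually.of_forall fun x => ?_
      set u := (x : E (c + 2)) 0 with hu
      by_cases hx : x ∈ cap c t
      · rw [indicator_of_mem hx]
        have hx2 : 0 < u - t := sub_pos.2 hx
        refine tendsto_const_nhds.congr' ?_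
        have hev : ∀ᶠ k : ℕ in atTop, 1 < (k : ℝ) * (u - t) :=
          (tendsto_natCast_atTop_atTop.atTop_mul_const hx2).eventually_gt_atTop 1
        filter_upwards [hev] with k hk
        simp only [hF]
        rw [← hu, Real.smoothTransition.one_of_one_le hk.le, st'_one hk]
        ring
      · rw [indicator_of_notMem hx]
        have hx2 : u ≤ t := not_lt.1 hx
        refine tendsto_const_nhds.congr' ?_
        filter_upwards [eventually_gt_atTop 0] with k hk
        have hk0 : (0 : ℝ) < k := by exact_mod_cast hk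
        simp only [hF]
        rw [← hu, Real.smoothTransition.zero_of_nonpos
          (mul_nonpos_of_nonneg_of_nonpos hk0.le (sub_nonpos.2 hx2))]
        rcases hx2.lt_or_eq with h3 | h3
        · rw [st'_neg (mul_neg_of_pos_of_neg hk0 (sub_neg.2 h3))]
          ring
        · rw [h3, h0]
          ring
  simp only [hF0] at hlim
  rw [← integral_indicator (cap_meas c t)]
  exact (tendsto_nhds_unique hlim tendsto_const_nhds)

/-! The polynomials. -/

lemma G_rec (d k : ℕ) (u : ℝ) : ((k : ℝ) + 1 + d) * G d (k + 2) u =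
    (2 * (k + 1) + d) * u * G d (k + 1) u - (k + 1) * G d k u := by
  have h : ((k : ℝ) + 1 + d) ≠ 0 := by positivity
  show ((k : ℝ) + 1 + d) * (((2 * (k + 1) + d) * u * G d (k + 1) u - (k + 1) * G d k u) / (k + 1 + d)) = _
  field_simp

/-- the derivatives -/
noncomputable def G' (d : ℕ) : ℕ → ℝ → ℝ
  | 0, _ => 0
  | 1, _ => 1
  | k + 2, t => ((2 * (k + 1) + d) * (G d (k + 1) t + t * G' d (k + 1) t) - (k + 1) * G' d k t) / (k + 1 + d)

lemma G_hd (d : ℕ) : ∀ (k : ℕ), (∀ u, HasDerivAt (G d k) (G' d k u) u) ∧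
    (∀ u, HasDerivAt (G d (k + 1)) (G' d (k + 1) u) u) := by
  intro k
  induction k with
  | zero =>
    refine ⟨fun u => ?_, fun u => ?_⟩
    · exact hasDerivAt_const u (1 : ℝ)
    · exact hasDerivAt_id u
  | succ k ih =>
    refine ⟨ih.2, fun u => ?_⟩
    have h1 := (((((hasDerivAt_id u).const_mul ((2 * (k + 1) + d : ℝ))).mul (ih.2 u)).sub
      ((ih.1 u).const_mul ((k : ℝ) + 1))).div_const ((k : ℝ) + 1 + d))
    refine h1.congr_deriv ?_
    show _ = ((2 * ((k : ℝ) + 1) + d) * (G d (k + 1) u + u * G' d (k + 1) u) - (k + 1) * G' d k u) / (k + 1 + d)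
    simp only [id_eq]
    ring

lemma G_cont (d k : ℕ) : Continuous (G d k) :=
  continuous_iff_continuousAt.2 fun s => ((G_hd d k).1 s).continuousAt

lemma G'_cont (d : ℕ) : ∀ (k : ℕ), Continuous (G' d k) ∧ Continuous (G' d (k + 1)) := by
  intro k
  induction k with
  | zero => exact ⟨continuous_const, continuous_const⟩
  | succ k ih =>
    refine ⟨ih.2, ?_⟩
    have h1 := ih.1
    have h2 := ih.2
    have h3 := G_cont d (k + 1)
    show Continuous fun u => ((2 * ((k : ℝ) + 1) + d) * (G d (k + 1) u + u * G' d (k + 1) u) -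
      (k + 1) * G' d k u) / (k + 1 + d)
    fun_prop

lemma G'_rec (d k : ℕ) (u : ℝ) : ((k : ℝ) + 1 + d) * G' d (k + 2) u =
    (2 * (k + 1) + d) * (G d (k + 1) u + u * G' d (k + 1) u) - (k + 1) * G' d k u := by
  have h : ((k : ℝ) + 1 + d) ≠ 0 := by positivity
  show ((k : ℝ) + 1 + d) * (((2 * (k + 1) + d) * (G d (k + 1) u + u * G' d (k + 1) u) -
    (k + 1) * G' d k u) / (k + 1 + d)) = _
  field_simp

lemma relB (d : ℕ) (u : ℝ) : ∀ j : ℕ,
    ((1 - u ^ 2) * G' d j u = ((j : ℝ) + d) * (u * G d j u - G d (j + 1) u)) ∧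
    ((1 - u ^ 2) * G' d (j + 1) u = ((j : ℝ) + 1) * (G d j u - u * G d (j + 1) u)) := by
  intro j
  induction j with
  | zero =>
    refine ⟨?_, ?_⟩
    · show (1 - u ^ 2) * 0 = (((0 : ℕ) : ℝ) + d) * (u * 1 - u)
      ring
    · show (1 - u ^ 2) * 1 = (((0 : ℕ) : ℝ) + 1) * (1 - u * u)
      push_cast
      ring
  | succ j ih =>
    obtain ⟨hA, hB⟩ := ih
    have hR := G_rec d j u
    have hR' := G'_rec d j u
    have hj : ((j : ℝ) + 1 + d) ≠ 0 := by positivity
    refine ⟨?_, ?_⟩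
    · rw [show j + 1 + 1 = j + 2 from rfl]
      push_cast
      linear_combination hB + hR
    · rw [show j + 1 + 1 = j + 2 from rfl]
      refine mul_left_cancel₀ hj ?_
      push_cast
      linear_combination (1 - u ^ 2) * hR' + (2 * ((j : ℝ) + 1) + d) * u * hB - ((j : ℝ) + 1) * hA +
        (((j : ℝ) + 2) * u) * hR

lemma relC (c : ℕ) (u : ℝ) : ∀ k : ℕ,
    (((c : ℝ) + 1) * G c (k + 1) u = ((k : ℝ) + c + 2) * G (c + 2) (k + 1) u - (k + 1) * u * G (c + 2) k u) ∧
    (((c : ℝ) + 1) * G c (k + 2) u = ((k : ℝ) + c + 3) * G (c + 2) (k + 2) u -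
      (k + 2) * u * G (c + 2) (k + 1) u) := by
  intro k
  induction k with
  | zero =>
    have h1 := G_rec c 0 u
    have h2 := G_rec (c + 2) 0 u
    simp only [zero_add] at h1 h2 ⊢
    have e1 : G c 1 u = u := rfl
    have e2 : G (c + 2) 1 u = u := rfl
    have e3 : G c 0 u = 1 := rfl
    have e4 : G (c + 2) 0 u = 1 := rfl
    rw [e1, e3] at h1
    rw [e2, e4] at h2
    refine ⟨?_, ?_⟩
    · rw [e1, e2, e4]; push_cast; ring
    · rw [e2]
      push_cast at h1 h2 ⊢
      linear_combination h1 - h2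
  | succ k ih =>
    obtain ⟨hA, hB⟩ := ih
    refine ⟨?_, ?_⟩
    · rw [show k + 1 + 1 = k + 2 from rfl]
      push_cast
      linear_combination hB
    · rw [show k + 1 + 1 = k + 2 from rfl, show k + 1 + 2 = k + 3 from rfl]
      have h1 := G_rec c (k + 1) u
      have h2 := G_rec (c + 2) (k + 1) u
      have h3 := G_rec (c + 2) k u
      rw [show k + 1 + 1 = k + 2 from rfl, show k + 1 + 2 = k + 3 from rfl] at h1 h2
      push_cast at h1 h2 h3 ⊢
      have hk : ((k : ℝ) + 2 + c) ≠ 0 := by positivity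
      refine mul_left_cancel₀ hk ?_
      linear_combination ((c : ℝ) + 1) * h1 + (2 * ((k : ℝ) + 2) + c) * u * hB - ((k : ℝ) + 2) * hA -
        ((k : ℝ) + 2 + c) * h2 + ((k : ℝ) + 2) * u * h3

/-- the pointwise identity -/
lemma relI (c j : ℕ) (u : ℝ) : ((c : ℝ) + 1) * (u * G (c + 2) j u) - (1 - u ^ 2) * G' (c + 2) j u =
    ((c : ℝ) + 1) * G c (j + 1) u := by
  have h1 := (relB (c + 2) u j).1
  have h2 := (relC c u j).1
  push_cast at h1
  linear_combination -h2 - h1

/-- the integrals -/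
noncomputable def Lc (c : ℕ) (t : ℝ) (k : ℕ) : ℝ :=
  ∫ y in cap c t, G c k ((y : E (c + 2)) 0) ∂(sg (c + 2))

lemma Lc_eq (c : ℕ) {t : ℝ} (ht : |t| ≤ 1) (j : ℕ) : Lc c t (j + 1) = G (c + 2) j t * Lc c t 1 := by
  have hG := G_cont (c + 2) j
  have hGc := G_cont c (j + 1)
  have h1 := divcap c (t := t) (ψ := fun u => G (c + 2) j u - G (c + 2) j t) (ψ' := G' (c + 2) j)
    (fun s => ((G_hd (c + 2) j).1 s).sub_const _) (G'_cont (c + 2) j).1 (sub_self _) ht
  have h2 : ∀ x : S (c + 2), (((c : ℝ) + 1) * ((x : E (c + 2)) 0 * (G (c + 2) j ((x : E (c + 2)) 0) - G (c + 2) j t)) -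
      (1 - (x : E (c + 2)) 0 ^ 2) * G' (c + 2) j ((x : E (c + 2)) 0)) =
      ((c : ℝ) + 1) * (G c (j + 1) ((x : E (c + 2)) 0)) -
        ((c : ℝ) + 1) * (G (c + 2) j t * G c 1 ((x : E (c + 2)) 0)) := by
    intro x
    have h3 := relI c j ((x : E (c + 2)) 0)
    have e1 : G c 1 ((x : E (c + 2)) 0) = (x : E (c + 2)) 0 := rfl
    rw [e1]
    linear_combination h3
  simp only [h2] at h1
  have i0 := G_cont c 1
  rw [integral_sub, integral_const_mul, integral_const_mul, integral_const_mul] at h1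
  · have hc : ((c : ℝ) + 1) ≠ 0 := by positivity
    have h4 : ((c : ℝ) + 1) * (Lc c t (j + 1) - G (c + 2) j t * Lc c t 1) = 0 := by
      unfold Lc
      linear_combination h1
    have h5 := (mul_eq_zero.1 h4).resolve_left hc
    linarith
  · exact (int_rc (by fun_prop)).integrableOn
  · exact (int_rc (by fun_prop)).integrableOn

lemma capL_eq (c : ℕ) (t : ℝ) (k : ℕ) :
    capL c t k = ((sg (c + 2) univ)⁻¹).toReal * Lc c t k := by
  unfold capL Lc sig
  rw [Measure.restrict_smul, integral_smul_measure, smul_eq_mul]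
  rfl

lemma capVol_eq (c : ℕ) (t : ℝ) :
    capVol c t = ((sg (c + 2) univ)⁻¹).toReal * (sg (c + 2)).real (cap c t) := by
  unfold capVol sig cap Measure.real
  rw [Measure.smul_apply, smul_eq_mul, ENNReal.toReal_mul]

/-- the recurrence -/
theorem rec : S_REC := by
  intro c t _ ht0 ht1
  have ht : |t| ≤ 1 := by rw [abs_of_pos ht0]; exact ht1.le
  have hw : 0 ≤ ((sg (c + 2) univ)⁻¹).toReal := ENNReal.toReal_nonneg
  refine ⟨⟨?_, ?_⟩, ?_⟩
  · rw [capL_eq]
    refine mul_nonneg hw (setIntegral_nonneg (cap_meas c t) fun x hx => ?_)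
    exact (ht0.trans hx).le
  · rw [capL_eq, capVol_eq]
    refine mul_le_mul_of_nonneg_left ?_ hw
    have h1 : (sg (c + 2)).real (cap c t) = ∫ _x in cap c t, (1 : ℝ) ∂(sg (c + 2)) := by
      simp
    rw [h1]
    unfold Lc
    have h2 := G_cont c 1
    refine setIntegral_mono_on (int_rc (by fun_prop)).integrableOn (int_rc (by fun_prop)).integrableOn
      (cap_meas c t) fun x _ => ?_
    exact (le_abs_self _).trans (x0_le c x)
  · intro k hk
    obtain ⟨j, rfl⟩ := Nat.exists_eq_add_of_le' hk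
    simp only [capL_eq]
    rcases j with _ | j
    · have h1 := Lc_eq c ht 1
      have h2 : G (c + 2) 1 t = t := rfl
      rw [h2] at h1
      simp only [zero_add]
      rw [show 1 + 1 = 2 from rfl] at h1 ⊢
      rw [h1]
      push_cast
      ring
    · rw [show j + 1 + 1 + 1 = (j + 2) + 1 from rfl, show j + 1 + 1 - 1 = j + 1 by omega,
        show j + 1 + 1 = (j + 1) + 1 from rfl, Lc_eq c ht (j + 2), Lc_eq c ht (j + 1), Lc_eq c ht j]
      have h3 := G_rec (c + 2) j t
      push_cast at h3 ⊢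
      linear_combination (((sg (c + 2) univ)⁻¹).toReal * Lc c t 1) * h3

end Pool.Agent.N80.SG
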